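import Pool.Agent.H54.RH.Targets

/-!
# MP_def5ca_co: the bases from the checks
-/

set_option autoImplicit false

open Pool.Agent.H54.RH

namespace Pool.Agent.H54.RHX

/-- the five soundness rows used for all bases -/
structure Snd : Prop where
  k1 : T_K1
  k2 : T_K2
  k3 : T_K3
  k4 : T_K4
  k5 : T_K5

theorem good_of (hs : Snd) {n b m c0 : ℕ} {r : List ℕ} (h1 : ck1 n b m = true)
    (h2 : ck2 n m = true) (h3 : ck3 n m = true) (h4 : ck4 n m c0 r = true) : Good (MS n m) b where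
  ne := (hs.k4 n m c0 r h4).1
  three := hs.k1 n b m h1
  edge := hs.k2 n m h2
  link := hs.k3 n m h3
  conn := (hs.k4 n m c0 r h4).2

theorem cx_of (hs : Snd) {n b m : ℕ} {X : ℤ} (h1 : ck1 n b m = true)
    (h5 : ((nv n m : ℤ) - 2 * ((codes n m).length : ℤ)) = X) : cx (MS n m) = X := by
  obtain ⟨e1, e2⟩ := hs.k5 n b m h1
  unfold cx
  rw [e1, e2, h5]

theorem oi_of (hs : Snd) (h6 : T_K6) (h8 : T_K8) {n b m c0 s q : ℕ} {r : List ℕ} {X : ℤ}
    (c1 : ck1 n b m = true) (c2 : ck2 n m = true) (c3 : ck3 n m = true)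
    (c4 : ck4 n m c0 r = true) (c5 : ((nv n m : ℤ) - 2 * ((codes n m).length : ℤ)) = X)
    (c6 : ck6 n m s = true) (c8 : ck8 n m 0 q = true) : OI X := by
  obtain ⟨q', hq, -, -⟩ := h8 n m 0 q c8
  exact ⟨n, b, MS n m, q', good_of hs c1 c2 c3 c4, hq, h6 n m s c6, cx_of hs c1 c5⟩

theorem ni_of (hs : Snd) (h7 : T_K7) (h8 : T_K8) {n b m c0 s q d0 : ℕ} {r : List ℕ}
    {w : List (ℕ × ℕ)} {X : ℤ}
    (c1 : ck1 n b m = true) (c2 : ck2 n m = true) (c3 : ck3 n m = true)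
    (c4 : ck4 n m c0 r = true) (c5 : ((nv n m : ℤ) - 2 * ((codes n m).length : ℤ)) = X)
    (c7 : ck7 n s d0 w = true) (c8 : ck8 n m s q = true) : NI X := by
  obtain ⟨q', hq, hS, hav⟩ := h8 n m s q c8
  exact ⟨n, b, MS n m, q', good_of hs c1 c2 c3 c4, hq, cx_of hs c1 c5, MS n s, hS,
    h7 n s d0 w c7, hav⟩

end Pool.Agent.H54.RHX
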