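import Pool.Agent.H54.RH.Data
import Pool.Agent.H54.RHX.Base

/-!
# MP_def5ca_co: the base N38
-/

set_option autoImplicit false

open Pool.Agent.H54.RH Pool.Agent.H54.RH.Data

namespace Pool.Agent.H54.RHX.BN38

theorem c1 : ck1 7 2 mN38 = true := by decide +kernel
theorem c2 : ck2 7 mN38 = true := by decide +kernel
theorem c3 : ck3 7 mN38 = true := by decide +kernel
theorem c4 : ck4 7 mN38 125 rN38 = true := by decide +kernel
theorem c5 : ((nv 7 mN38 : ℤ) - 2 * ((codes 7 mN38).length : ℤ)) = -38 := by decide +kernel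
theorem c7 : ck7 7 sN38 349 wN38 = true := by decide +kernel
theorem c8 : ck8 7 mN38 sN38 1020 = true := by decide +kernel

theorem base (hs : Snd) (h7 : T_K7) (h8 : T_K8) : NI (-38) :=
  ni_of hs h7 h8 c1 c2 c3 c4 c5 c7 c8

end Pool.Agent.H54.RHX.BN38
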