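import Pool.Agent.H54.RH.Data
import Pool.Agent.H54.RHX.Base

/-!
# MP_def5ca_co: the base O18
-/

set_option autoImplicit false

open Pool.Agent.H54.RH Pool.Agent.H54.RH.Data

namespace Pool.Agent.H54.RHX.BO18

theorem c1 : ck1 6 1 mO18 = true := by decide +kernel
theorem c2 : ck2 6 mO18 = true := by decide +kernel
theorem c3 : ck3 6 mO18 = true := by decide +kernel
theorem c4 : ck4 6 mO18 113 rO18 = true := by decide +kernel
theorem c5 : ((nv 6 mO18 : ℤ) - 2 * ((codes 6 mO18).length : ℤ)) = -18 := by decide +kernel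
theorem c6 : ck6 6 mO18 sO18 = true := by decide +kernel
theorem c8 : ck8 6 mO18 0 112 = true := by decide +kernel

theorem base (hs : Snd) (h6 : T_K6) (h8 : T_K8) : OI (-18) :=
  oi_of hs h6 h8 c1 c2 c3 c4 c5 c6 c8

end Pool.Agent.H54.RHX.BO18
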