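import Pool.Agent.H54.RH.Data
import Pool.Agent.H54.RHX.Base

/-!
# MP_def5ca_co: the base O26
-/

set_option autoImplicit false

open Pool.Agent.H54.RH Pool.Agent.H54.RH.Data

namespace Pool.Agent.H54.RHX.BO26

theorem c1 : ck1 7 2 mO26 = true := by decide +kernel
theorem c2 : ck2 7 mO26 = true := by decide +kernel
theorem c3 : ck3 7 mO26 = true := by decide +kernel
theorem c4 : ck4 7 mO26 447 rO26 = true := by decide +kernel
theorem c5 : ((nv 7 mO26 : ℤ) - 2 * ((codes 7 mO26).length : ℤ)) = -26 := by decide +kernel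
theorem c6 : ck6 7 mO26 sO26 = true := by decide +kernel
theorem c8 : ck8 7 mO26 0 444 = true := by decide +kernel

theorem base (hs : Snd) (h6 : T_K6) (h8 : T_K8) : OI (-26) :=
  oi_of hs h6 h8 c1 c2 c3 c4 c5 c6 c8

end Pool.Agent.H54.RHX.BO26
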