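import Pool.Agent.H54.RH.Targets

/-!
# MP_def5ca_co: rows ST, FM
-/

set_option autoImplicit false

open Pool.Agent.H54.RH

namespace Pool.Agent.H54.RHX

theorem good_stk (h2 : T_SE) (h3 : T_SL) (h4 : T_SC) {n b : ℕ} {M : Finset (W n)} {q : W n}
    (hM : Good M b) (hq : Full M q) : Good (stk M q) b where
  ne := (h4 n b M q hM hq).1
  three := (h2 n b M q hM hq).1
  edge := (h2 n b M q hM hq).2
  link := h3 n b M q hM hq
  conn := (h4 n b M q hM hq).2

/-- the new full cell -/
theorem full_stk (h1 : T_SA) {n b : ℕ} {M : Finset (W n)} {q u : W n} {w : Fin n}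
    (hM : Good M b) (hq : Full M q) (hw : q w = 1) (hu : u = Function.update q w 0) :
    Full (stk M q) (Fin.cons 1 u) := by
  classical
  have hu1 : ∀ t, u t = 1 ↔ q t = 1 ∧ t ≠ w := by
    intro t
    rw [hu]
    by_cases h5 : t = w
    · rw [h5, Function.update_self]
      simp
    · rw [Function.update_of_ne h5]
      exact ⟨fun h => ⟨h, h5⟩, fun h => h.1⟩
  have hact : act (Fin.cons 1 u : W (n + 1)) = insert 0 (((act q).erase w).map (Fin.succEmb n)) := by
    ext t
    refine Fin.cases ?_ (fun s => ?_) t
    · simp [act]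
    · simp only [act, Finset.mem_filter, Finset.mem_univ, true_and, Fin.cons_succ,
        Finset.mem_insert, Finset.mem_map, Finset.mem_erase]
      rw [hu1]
      constructor
      · rintro ⟨h5, h6⟩
        exact Or.inr ⟨s, ⟨h6, h5⟩, rfl⟩
      · rintro (h5 | ⟨a, ⟨h5, h6⟩, h7⟩)
        · exact absurd h5 (Fin.succ_ne_zero s)
        · have : a = s := by
            apply Fin.succ_injective n
            exact h7
          subst this
          exact ⟨h6, h5⟩
  have hwA : w ∈ act q := by simp [act, hw]
  have hq2 : ∀ w, q w = 1 → (two q).card + 1 = (two (Function.update q w 2)).card := by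
    intro w hw
    have : two (Function.update q w 2) = insert w (two q) := by
      ext t
      simp only [two, Finset.mem_filter, Finset.mem_univ, true_and, Finset.mem_insert]
      by_cases h5 : t = w
      · rw [h5, Function.update_self]
        simp
      · rw [Function.update_of_ne h5]
        tauto
    rw [this, Finset.card_insert_of_notMem]
    simp [two, hw]
  constructor
  · rw [hact, Finset.card_insert_of_notMem, Finset.card_map, Finset.card_erase_of_mem hwA, hq.1]
    simp only [Finset.mem_map, not_exists, not_and]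
    intro a _ h5
    exact Fin.succ_ne_zero a h5
  · intro t ht
    rw [h1 n b M q hM hq]
    right
    set g : W (n + 1) := Function.update (Fin.cons 1 u) t 2 with hg
    have hu2 : two u = two q := by
      ext s
      simp only [two, Finset.mem_filter, Finset.mem_univ, true_and]
      rw [hu]
      by_cases h5 : s = w
      · rw [h5, Function.update_self, hw]
        decide
      · rw [Function.update_of_ne h5]
    have hcons2 : (two (Fin.cons 1 u : W (n + 1))).card = (two q).card := by
      have : two (Fin.cons 1 u : W (n + 1)) = (two u).map (Fin.succEmb n) := by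
        ext s
        refine Fin.cases ?_ (fun s => ?_) s
        · simp only [two, Finset.mem_filter, Finset.mem_univ, true_and, Fin.cons_zero,
            Finset.mem_map]
          constructor
          · intro h5; exact absurd h5 (by decide)
          · rintro ⟨a, _, h6⟩; exact absurd h6 (Fin.succ_ne_zero a)
        · simp only [two, Finset.mem_filter, Finset.mem_univ, true_and, Fin.cons_succ,
            Finset.mem_map]
          constructor
          · intro h5; exact ⟨s, h5, rfl⟩
          · rintro ⟨a, h5, h6⟩
            have : a = s := by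
              apply Fin.succ_injective n
              exact h6
            rw [← this]; exact h5
      rw [this, Finset.card_map, hu2]
    have hg1 : act g = (act (Fin.cons 1 u : W (n + 1))).erase t := by
      ext s
      simp only [act, Finset.mem_filter, Finset.mem_univ, true_and, Finset.mem_erase, hg]
      by_cases h5 : s = t
      · rw [h5, Function.update_self]
        simp
      · rw [Function.update_of_ne h5]
        tauto
    have hg2 : two g = insert t (two (Fin.cons 1 u : W (n + 1))) := by
      ext s
      simp only [two, Finset.mem_filter, Finset.mem_univ, true_and, Finset.mem_insert, hg]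
      by_cases h5 : s = t
      · rw [h5, Function.update_self]
        simp
      · rw [Function.update_of_ne h5]
        tauto
    have htA : t ∈ act (Fin.cons 1 u : W (n + 1)) := by
      simp only [act, Finset.mem_filter, Finset.mem_univ, true_and]; exact ht
    refine ⟨?_, ?_⟩
    · simp only [blk, Finset.mem_filter, Finset.mem_univ, true_and]
      refine ⟨?_, ?_, ?_⟩
      · intro s hs
        have h5 : s.succ ≠ t := by
          rintro rfl
          rw [Fin.cons_succ] at ht
          exact hs ((hu1 s).1 ht).1
        rw [hg, Function.update_of_ne h5, Fin.cons_succ, hu, Function.update_of_ne]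
        rintro rfl
        exact hs hw
      · rw [hg1, Finset.card_erase_of_mem htA, hact, Finset.card_insert_of_notMem,
          Finset.card_map, Finset.card_erase_of_mem hwA, hq.1]
        simp only [Finset.mem_map, not_exists, not_and]
        intro a _ h5
        exact Fin.succ_ne_zero a h5
      · rw [hg2, Finset.card_insert_of_notMem, hcons2]
        simp only [two, Finset.mem_filter, Finset.mem_univ, true_and]
        rw [ht]
        decide
    · rw [hg]
      by_cases h5 : (0 : Fin (n + 1)) = t
      · rw [← h5, Function.update_self]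
        decide
      · rw [Function.update_of_ne h5, Fin.cons_zero]
        decide

theorem pf_ST (h1 : T_SA) (h2 : T_SE) (h3 : T_SL) (h4 : T_SC) (h5 : T_SX) (h6 : T_SO)
    (h7 : T_SN) : T_ST := by
  constructor
  · rintro X ⟨n, b, M, q, hM, hq, ho, hX⟩
    have hpos : (act q).Nonempty := Finset.card_pos.1 (by rw [hq.1]; norm_num)
    obtain ⟨w, hw⟩ := hpos
    have hw1 : q w = 1 := by simpa [act] using hw
    exact ⟨n + 1, b, stk M q, _, good_stk h2 h3 h4 hM hq, full_stk h1 hM hq hw1 rfl,
      h6 n b M q hM hq ho, by rw [h5 n b M q hM hq, hX]⟩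
  · rintro X ⟨n, b, M, q, hM, hq, hX, S, hS, hno, hav⟩
    have hpos : (act q).Nonempty := Finset.card_pos.1 (by rw [hq.1]; norm_num)
    obtain ⟨w, hw⟩ := hpos
    have hw1 : q w = 1 := by simpa [act] using hw
    obtain ⟨k1, k2, k3, k4⟩ := h7 n b M S q _ w hM hq hS hno hav hw1 rfl
    exact ⟨n + 1, b, stk M q, _, good_stk h2 h3 h4 hM hq, k1,
      by rw [h5 n b M q hM hq, hX], S.image up, k2, k3, k4⟩

theorem step_down {P : ℤ → Prop} (h : ∀ X, P X → P (X - 6)) {a : ℤ} (ha : P a) :
    ∀ k : ℕ, P (a - 6 * k) := by
  intro k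
  induction k with
  | zero => simpa using ha
  | succ k ih =>
    have := h _ ih
    have e : a - 6 * (k : ℤ) - 6 = a - 6 * ((k + 1 : ℕ) : ℤ) := by push_cast; ring
    rwa [e] at this

theorem step_to {P : ℤ → Prop} (h : ∀ X, P X → P (X - 6)) {a : ℤ} (ha : P a) (X : ℤ)
    (h1 : X ≤ a) (h2 : (a - X) % 6 = 0) : P X := by
  have h3 := step_down h ha ((a - X) / 6).toNat
  have h4 : (((a - X) / 6).toNat : ℤ) = (a - X) / 6 := Int.toNat_of_nonneg (by omega)
  rw [h4] at h3
  have h5 : a - 6 * ((a - X) / 6) = X := by omega
  rwa [h5] at h3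

theorem pf_FM (h : T_ST) : T_FM := by
  intro o1 o2 o3 n1 n2 n3 n4 n5 n6
  obtain ⟨ho, hn⟩ := h
  constructor
  · intro X hev hX
    obtain ⟨c, hc⟩ := hev
    have h6 : (-10 - X) % 6 = 0 ∨ (-18 - X) % 6 = 0 ∨ (-26 - X) % 6 = 0 := by omega
    rcases h6 with h6 | h6 | h6
    · exact step_to ho o1 X (by omega) h6
    · exact step_to ho o2 X (by omega) h6
    · exact step_to ho o3 X (by omega) h6
  · intro X hX
    have h6 : (-30 - X) % 6 = 0 ∨ (-35 - X) % 6 = 0 ∨ (-38 - X) % 6 = 0 ∨ (-40 - X) % 6 = 0 ∨
        (-43 - X) % 6 = 0 ∨ (-45 - X) % 6 = 0 := by omega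
    rcases h6 with h6 | h6 | h6 | h6 | h6 | h6
    · exact step_to hn n1 X (by omega) h6
    · exact step_to hn n2 X (by omega) h6
    · exact step_to hn n3 X (by omega) h6
    · exact step_to hn n4 X (by omega) h6
    · exact step_to hn n5 X (by omega) h6
    · exact step_to hn n6 X (by omega) h6

theorem pf_FN (h1 : T_GE) (h2 : (∀ X : ℤ, Even X → X ≤ -22 ∨ X = -10 ∨ X = -16 ∨ X = -18 → OI X) ∧
    ∀ X : ℤ, X ≤ -40 ∨ X = -30 ∨ X = -35 ∨ X = -36 ∨ X = -38 → NI X) : T_FN := by
  constructor
  · intro X hX
    obtain ⟨n, b, M, q, hM, -, hc, S, hS, hno, -⟩ := h2.2 X hX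
    obtain ⟨F, f1, f2, f3, f4, f5⟩ := h1 n b M hM
    refine ⟨n, F, f1, f2, f3, by rw [f4, hc], fun ho => hno ?_⟩
    obtain ⟨s, hs⟩ := f5.1 ho
    exact ⟨s, fun h hh k l h5 h6 h7 => hs h (hS hh) k l h5 h6 (hS h7)⟩
  · intro X hev hX
    obtain ⟨n, b, M, q, hM, -, ho, hc⟩ := h2.1 X hev hX
    obtain ⟨F, f1, f2, f3, f4, f5⟩ := h1 n b M hM
    exact ⟨n, F, f1, f2, f3, by rw [f4, hc], f5.2 ho⟩

end Pool.Agent.H54.RHX
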