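import Pool.Agent.H54.RHX.LO
import Pool.Agent.H54.RHX.ST
import Pool.Agent.H54.RHX.BO10
import Pool.Agent.H54.RHX.BO18
import Pool.Agent.H54.RHX.BO26
import Pool.Agent.H54.RHX.BN30
import Pool.Agent.H54.RHX.BN35
import Pool.Agent.H54.RHX.BN38
import Pool.Agent.H54.RHX.BN40
import Pool.Agent.H54.RHX.BN43
import Pool.Agent.H54.RHX.BN45
import Pool.Agent.H4.RHX.SE
import Pool.Agent.H5.RHX.CN
import Pool.Agent.H7.RHX.K3
import Pool.Agent.H7.RHX.K4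
import Pool.Agent.H7.RHX.K5
import Pool.Agent.H7.RHX.LK
import Pool.Agent.H12.RHX.CT
import Pool.Agent.H17.RHX.SN
import Pool.Agent.H20.RHX.HB
import Pool.Agent.H20.RHX.SX
import Pool.Agent.H33.RHX.HS
import Pool.Agent.H33.RHX.MF
import Pool.Agent.H33.RHX.RG
import Pool.Agent.H35.RHX.HG
import Pool.Agent.H40.RHX.K6
import Pool.Agent.H42.RHX.K0
import Pool.Agent.H42.RHX.K1
import Pool.Agent.H59.RHX.SO
import Pool.Agent.H65.RHX.SA
import Pool.Agent.H65.RHX.SC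
import Pool.Agent.H65.RHX.SL
import Pool.Agent.H67.RHX.K2
import Pool.Agent.H70.RHX.HE
import Pool.Agent.H74.RHX.HX
import Pool.Agent.H79.RHX.GE
import Pool.Agent.H79.RHX.K8
import Pool.Agent.H89.RHX.OR
import Pool.Agent.H94.RHX.K7

/-!
# MP_def5ca_co: the board `rhx_modules` put together
-/

set_option autoImplicit false

open Pool.Agent.H54.RH

namespace Pool.Agent.H54.RHX

theorem a_K0 : T_K0 := Pool.Agent.H42.RHX.pf_K0

theorem a_K1 : T_K1 := Pool.Agent.H42.RHX.pf_K1 a_K0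

theorem a_K2 : T_K2 := Pool.Agent.H67.RHX.pf_K2 a_K0

theorem a_K3 : T_K3 := Pool.Agent.H7.RHX.pf_K3 a_K0

theorem a_K4 : T_K4 := Pool.Agent.H7.RHX.pf_K4 a_K0

theorem a_K5 : T_K5 := Pool.Agent.H7.RHX.pf_K5 a_K0 a_K1

theorem a_K6 : T_K6 := Pool.Agent.H40.RHX.pf_K6 a_K0

theorem a_K7 : T_K7 := Pool.Agent.H94.RHX.pf_K7 a_K0

theorem a_K8 : T_K8 := Pool.Agent.H79.RHX.pf_K8 a_K0

theorem a_SA : T_SA := Pool.Agent.H65.RHX.pf_SA

theorem a_SE : T_SE := Pool.Agent.H4.RHX.pf_SE a_SA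

theorem a_SL : T_SL := Pool.Agent.H65.RHX.pf_SL a_SA

theorem a_SC : T_SC := Pool.Agent.H65.RHX.pf_SC a_SA a_SE

theorem a_SX : T_SX := Pool.Agent.H20.RHX.pf_SX a_SA

theorem a_SO : T_SO := Pool.Agent.H59.RHX.pf_SO a_SA

theorem a_SN : T_SN := Pool.Agent.H17.RHX.pf_SN a_SA

theorem a_ST : T_ST := pf_ST a_SA a_SE a_SL a_SC a_SX a_SO a_SN

theorem a_HB : T_HB := Pool.Agent.H20.RHX.pf_HB

theorem a_HG : T_HG := Pool.Agent.H35.RHX.pf_HG a_HB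

theorem a_HE : T_HE := Pool.Agent.H70.RHX.pf_HE

theorem a_HX : T_HX := Pool.Agent.H74.RHX.pf_HX a_HB a_HE

theorem a_HS : T_HS := Pool.Agent.H33.RHX.pf_HS a_HB a_HE

theorem a_LK : T_LK := Pool.Agent.H7.RHX.pf_LK

theorem a_LO : T_LO := pf_LO a_HB

theorem a_MF : T_MF := Pool.Agent.H33.RHX.pf_MF a_HB a_LK a_LO

theorem a_CN : T_CN := Pool.Agent.H5.RHX.pf_CN a_HB

theorem a_CT : T_CT := Pool.Agent.H12.RHX.pf_CT a_HB a_HE a_HX a_HS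

theorem a_OR : T_OR := Pool.Agent.H89.RHX.pf_OR a_HE a_HX a_HS

theorem a_RG : T_RG := Pool.Agent.H33.RHX.pf_RG a_HG a_HE

theorem a_GE : T_GE := Pool.Agent.H79.RHX.pf_GE a_HG a_HX a_MF a_CN a_CT a_OR a_RG

theorem a_snd : Snd := ⟨a_K1, a_K2, a_K3, a_K4, a_K5⟩

/-- the theorem -/
theorem a_FN : T_FN := pf_FN a_GE (pf_FM a_ST (BO10.base a_snd a_K6 a_K8)
  (BO18.base a_snd a_K6 a_K8) (BO26.base a_snd a_K6 a_K8) (BN30.base a_snd a_K7 a_K8)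
  (BN35.base a_snd a_K7 a_K8) (BN38.base a_snd a_K7 a_K8) (BN40.base a_snd a_K7 a_K8)
  (BN43.base a_snd a_K7 a_K8) (BN45.base a_snd a_K7 a_K8))

end Pool.Agent.H54.RHX
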