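import Pool.Agent.H54.RH.Targets

/-!
# MP_def5ca_co: row LO
-/

set_option autoImplicit false

open Pool.Agent.H54.RH
open Pool.Agent.H54.PM (body IsGon IsEdge Un IsPM ver edg chi Ori Fan)

namespace Pool.Agent.H54.RHX

section

variable {n : ℕ}

theorem act_vx {h v : W n} (hv : IsVx h v) : ∃ z y, z ∈ act h ∧ y ∈ act h ∧ z ≠ y ∧
    v z = 0 ∧ v y = 2 ∧ ∀ t, t ≠ z → t ≠ y → v t = h t := by
  obtain ⟨z, y, hz, hy, hzy, rfl⟩ := hv
  refine ⟨z, y, ?_, ?_, hzy, ?_, ?_, ?_⟩
  · simp [act, hz]
  · simp [act, hy]
  · rw [Function.update_of_ne hzy, Function.update_self]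
  · rw [Function.update_self]
  · intro t h1 h2
    rw [Function.update_of_ne h2, Function.update_of_ne h1]

/-- the letters of a vertex -/
theorem vx_card {h v : W n} (hv : IsVx h v) (h3 : (act h).card = 3) :
    (act v).card = 1 ∧ (two v).card = (two h).card + 1 := by
  obtain ⟨z, y, hz, hy, hzy, vz, vy, ht⟩ := act_vx hv
  have hz' : h z = 1 := by simpa [act] using hz
  have hy' : h y = 1 := by simpa [act] using hy
  constructor
  · have e1 : act v = ((act h).erase z).erase y := by
      ext t
      simp only [act, Finset.mem_filter, Finset.mem_univ, true_and, Finset.mem_erase]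
      constructor
      · intro h1
        refine ⟨?_, ?_, ?_⟩
        · rintro rfl; rw [vy] at h1; exact absurd h1 (by decide)
        · rintro rfl; rw [vz] at h1; exact absurd h1 (by decide)
        · rw [← ht t ?_ ?_]
          · exact h1
          · rintro rfl; rw [vz] at h1; exact absurd h1 (by decide)
          · rintro rfl; rw [vy] at h1; exact absurd h1 (by decide)
      · rintro ⟨h1, h2, h4⟩
        rw [ht t h2 h1]; exact h4
    rw [e1, Finset.card_erase_of_mem, Finset.card_erase_of_mem hz, h3]
    exact Finset.mem_erase.2 ⟨hzy.symm, hy⟩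
  · have e1 : two v = insert y (two h) := by
      ext t
      simp only [two, Finset.mem_filter, Finset.mem_univ, true_and, Finset.mem_insert]
      constructor
      · intro h1
        by_cases h2 : t = y
        · exact Or.inl h2
        · right
          rw [← ht t ?_ h2]
          · exact h1
          · rintro rfl; rw [vz] at h1; exact absurd h1 (by decide)
      · rintro (h1 | h1)
        · rw [h1]; exact vy
        · rw [ht t]
          · exact h1
          · rintro rfl; rw [hz'] at h1; exact absurd h1 (by decide)
          · rintro rfl; rw [hy'] at h1; exact absurd h1 (by decide)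
    rw [e1, Finset.card_insert_of_notMem]
    simp [two, hy']

/-- a hexagon which contains a point near `v` has the vertex `v` -/
theorem vx_of_near {h v : W n} {b : ℕ} (h3 : (act h).card = 3) (h2 : (two h).card = b)
    (v1 : (act v).card = 1) (v2 : (two v).card = b + 1)
    (hne : ∀ t, h t ≠ 1 → v t = h t) : IsVx h v := by
  obtain ⟨m, hm⟩ := Finset.card_eq_one.1 v1
  have hm1 : v m = 1 := by
    have : m ∈ act v := by rw [hm]; exact Finset.mem_singleton_self m
    simpa [act] using this
  have huniq : ∀ t, v t = 1 → t = m := by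
    intro t ht
    have : t ∈ act v := by simp [act, ht]
    rw [hm] at this
    exact Finset.mem_singleton.1 this
  have hmA : h m = 1 := by
    by_contra h5
    exact h5 ((hne m h5).symm.trans hm1)
  have hsub : two h ⊆ two v := by
    intro t ht
    simp only [two, Finset.mem_filter, Finset.mem_univ, true_and] at ht ⊢
    rw [hne t (by rw [ht]; decide)]; exact ht
  have hcard : (two v \ two h).card = 1 := by
    rw [Finset.card_sdiff_of_subset hsub, v2, h2]; omega
  obtain ⟨y, hy⟩ := Finset.card_eq_one.1 hcard
  have hyy : y ∈ two v \ two h := by rw [hy]; exact Finset.mem_singleton_self y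
  rw [Finset.mem_sdiff] at hyy
  have vy : v y = 2 := by simpa [two] using hyy.1
  have hy1 : h y = 1 := by
    by_contra h5
    have h6 := hne y h5
    apply hyy.2
    simp only [two, Finset.mem_filter, Finset.mem_univ, true_and]
    rw [← h6]; exact vy
  have hmy : m ≠ y := by
    rintro rfl
    rw [hm1] at vy; exact absurd vy (by decide)
  obtain ⟨z, hz, hzm, hzy⟩ : ∃ z ∈ act h, z ≠ m ∧ z ≠ y := by
    have hcard2 : 0 < ((act h \ {m, y}).card) := by
      have h7 : (({m, y} : Finset (Fin n))).card ≤ 2 := Finset.card_le_two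
      have h8 := Finset.le_card_sdiff ({m, y} : Finset (Fin n)) (act h)
      omega
    obtain ⟨z, hz⟩ := Finset.card_pos.1 hcard2
    rw [Finset.mem_sdiff, Finset.mem_insert, Finset.mem_singleton, not_or] at hz
    exact ⟨z, hz.1, hz.2.1, hz.2.2⟩
  have hz1 : h z = 1 := by simpa [act] using hz
  have vz1 : v z ≠ 1 := fun h5 => hzm (huniq z h5)
  have vz2 : v z ≠ 2 := by
    intro h5
    have : z ∈ two v \ two h := by
      rw [Finset.mem_sdiff]
      refine ⟨by simp [two, h5], ?_⟩
      simp [two, hz1]
    rw [hy] at this
    exact hzy (Finset.mem_singleton.1 this)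
  have vz : v z = 0 := by
    have : ∀ a : Fin 3, a ≠ 1 → a ≠ 2 → a = 0 := by decide
    exact this _ vz1 vz2
  have hact : act h = {m, y, z} := by
    symm
    apply Finset.eq_of_subset_of_card_le
    · intro t ht
      simp only [Finset.mem_insert, Finset.mem_singleton] at ht
      simp only [act, Finset.mem_filter, Finset.mem_univ, true_and]
      rcases ht with rfl | rfl | rfl
      · exact hmA
      · exact hy1
      · exact hz1
    · rw [h3, Finset.card_insert_of_notMem, Finset.card_insert_of_notMem,
        Finset.card_singleton]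
      · simp [hzy.symm]
      · simp [hmy, hzm.symm]
  refine ⟨z, y, hz1, hy1, hzy, ?_⟩
  funext t
  by_cases h5 : t = y
  · rw [h5, Function.update_self, vy]
  rw [Function.update_of_ne h5]
  by_cases h6 : t = z
  · rw [h6, Function.update_self, vz]
  rw [Function.update_of_ne h6]
  by_cases h7 : t = m
  · rw [h7, hm1, hmA]
  · apply hne
    intro h8
    have : t ∈ act h := by simp [act, h8]
    rw [hact] at this
    simp only [Finset.mem_insert, Finset.mem_singleton] at this
    tauto

end

theorem add_one_ne' {d : ℕ} [NeZero d] (hd : 4 ≤ d) (k : Fin d) : k + 1 ≠ k := by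
  intro hh
  have h5 : (1 : Fin d) = 0 := by
    have h6 : k + 1 = k + 0 := by rw [add_zero]; exact hh
    exact add_left_cancel h6
  have h7 := congrArg Fin.val h5
  rw [Fin.val_one', Nat.mod_eq_of_lt (by omega)] at h7
  simp at h7

theorem even_succ {d : ℕ} [NeZero d] (hd : Even d) (hd4 : 4 ≤ d) (k : Fin d) :
    Even (k + 1).val ↔ ¬ Even k.val := by
  have hv : (k + 1).val = (k.val + 1) % d := by
    rw [Fin.val_add, Fin.val_one', Nat.add_mod_mod]
  rw [hv]
  by_cases h1 : k.val + 1 < d
  · rw [Nat.mod_eq_of_lt h1, Nat.even_add_one]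
  · have h2 : k.val + 1 = d := by have := k.isLt; omega
    rw [h2, Nat.mod_self]
    have h3 : Even (k.val + 1) := by rw [h2]; exact hd
    rw [Nat.even_add_one] at h3
    simp [h3]

theorem pf_LO (h0 : T_HB) : T_LO := by
  classical
  intro n b M hM v d _ r hd hr
  have hmem : ∀ k : Fin d, Function.update (Function.update v (r k) 1) (r (k + 1)) 1 ∈ M ∧
      IsVx (Function.update (Function.update v (r k) 1) (r (k + 1)) 1) v :=
    fun k => (hr.mem _).2 ⟨k, rfl⟩
  set hx : Fin d → W n := fun k => Function.update (Function.update v (r k) 1) (r (k + 1)) 1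
    with hhx
  have h3 : ∀ k, (act (hx k)).card = 3 := fun k => (hM.three _ (hmem k).1).1
  have hv1 : (act v).card = 1 := (vx_card (hmem 0).2 (h3 0)).1
  have hv2 : (two v).card = b + 1 := by
    rw [(vx_card (hmem 0).2 (h3 0)).2, (hM.three _ (hmem 0).1).2]
  obtain ⟨m, hm⟩ := Finset.card_eq_one.1 hv1
  have hm1 : v m = 1 := by
    have : m ∈ act v := by rw [hm]; exact Finset.mem_singleton_self m
    simpa [act] using this
  have huniq : ∀ t, v t = 1 → t = m := by
    intro t ht
    have : t ∈ act v := by simp [act, ht]
    rw [hm] at this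
    exact Finset.mem_singleton.1 this
  have hrm : ∀ k, r k ≠ m := by
    intro k hk
    by_cases h5 : Even k.val
    · have := hr.zero k h5; rw [hk, hm1] at this; exact absurd this (by decide)
    · have := hr.two k h5; rw [hk, hm1] at this; exact absurd this (by decide)
  have hrr : ∀ k, r (k + 1) ≠ r k := fun k hh => add_one_ne' hd k (hr.inj hh)
  have hval : ∀ k t, hx k t = if t = r (k + 1) ∨ t = r k then 1 else v t := by
    intro k t
    simp only [hhx]
    by_cases h5 : t = r (k + 1)
    · rw [h5, Function.update_self, if_pos (Or.inl rfl)]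
    · rw [Function.update_of_ne h5]
      by_cases h6 : t = r k
      · rw [h6, Function.update_self, if_pos (Or.inr rfl)]
      · rw [Function.update_of_ne h6, if_neg]
        rintro (h7 | h7)
        · exact h5 h7
        · exact h6 h7
  have hact : ∀ k, act (hx k) = {m, r k, r (k + 1)} := by
    intro k
    ext t
    simp only [act, Finset.mem_filter, Finset.mem_univ, true_and, Finset.mem_insert,
      Finset.mem_singleton]
    rw [hval]
    constructor
    · intro h5
      by_cases h6 : t = r (k + 1) ∨ t = r k
      · tauto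
      · rw [if_neg h6] at h5
        exact Or.inl (huniq t h5)
    · rintro (h5 | h5 | h5)
      · rw [if_neg]
        · rw [h5]; exact hm1
        · rintro (h6 | h6)
          · exact hrm _ (h6.symm.trans h5)
          · exact hrm _ (h6.symm.trans h5)
      · rw [if_pos (Or.inr h5)]
      · rw [if_pos (Or.inl h5)]
  have hsum : ∀ (k : Fin d) (x : Fin n → ℝ),
      ∑ t ∈ act (hx k), x t = x m + x (r k) + x (r (k + 1)) := by
    intro k x
    rw [hact, Finset.sum_insert, Finset.sum_insert, Finset.sum_singleton]
    · ring
    · rw [Finset.mem_singleton]; exact (hrr k).symm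
    · rw [Finset.mem_insert, Finset.mem_singleton]
      rintro (h5 | h5)
      · exact hrm _ h5.symm
      · exact hrm _ h5.symm
  -- the projection and its inverse
  set P : (Fin n → ℝ) → (Fin d → ℝ) := fun x k =>
    if Even k.val then x (r k) else 2 - x (r k) with hP
  set sg : Fin d → ℝ := fun k => if Even k.val then 1 else -1 with hsg
  set Th : (Fin d → ℝ) → (Fin n → ℝ) := fun a t => ((v t).val : ℝ) +
    (∑ k, (if r k = t then sg k * a k else 0)) - (if v t = 1 then ∑ k, sg k * a k else 0) with hTh
  have hPc : Continuous P := by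
    refine continuous_pi fun k => ?_
    simp only [hP]
    split_ifs
    · fun_prop
    · fun_prop
  have hThc : Continuous Th := by
    refine continuous_pi fun t => ?_
    simp only [hTh]
    refine Continuous.sub (Continuous.add continuous_const ?_) ?_
    · refine continuous_finsetSum _ fun k _ => ?_
      split_ifs
      · fun_prop
      · fun_prop
    · split_ifs
      · fun_prop
      · fun_prop
  have hTr : ∀ a k, Th a (r k) = ((v (r k)).val : ℝ) + sg k * a k := by
    intro a k
    have h6 : v (r k) ≠ 1 := fun h5 => hrm k (huniq _ h5)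
    simp only [hTh]
    rw [if_neg h6, sub_zero, Finset.sum_eq_single k]
    · rw [if_pos rfl]
    · intro j _ hj
      rw [if_neg]
      exact fun h5 => hj (hr.inj h5)
    · intro h5
      exact absurd (Finset.mem_univ _) h5
  have hTm : ∀ a, Th a m = 1 - ∑ k, sg k * a k := by
    intro a
    simp only [hTh]
    rw [if_pos hm1, hm1, Finset.sum_eq_zero]
    · simp
    · intro j _
      rw [if_neg (hrm j)]
  have hTo : ∀ a t, t ≠ m → (∀ k, r k ≠ t) → Th a t = ((v t).val : ℝ) := by
    intro a t h5 h6
    simp only [hTh]
    rw [if_neg (fun h7 => h5 (huniq t h7)), sub_zero, Finset.sum_eq_zero, add_zero]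
    intro j _
    rw [if_neg (h6 j)]
  have hsupp : ∀ (a : Fin d → ℝ) (k : Fin d), (∀ j, j ≠ k → j ≠ k + 1 → a j = 0) →
      ∑ j, sg j * a j = sg k * a k + sg (k + 1) * a (k + 1) := by
    intro a k ha
    rw [← Finset.sum_subset (Finset.subset_univ ({k, k + 1} : Finset (Fin d)))]
    · rw [Finset.sum_insert, Finset.sum_singleton]
      rw [Finset.mem_singleton]
      exact (add_one_ne' hd k).symm
    · intro j _ hj
      rw [Finset.mem_insert, Finset.mem_singleton, not_or] at hj
      rw [ha j hj.1 hj.2, mul_zero]
  have hPT : ∀ a, P (Th a) = a := by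
    intro a
    funext k
    simp only [hP]
    by_cases h5 : Even k.val
    · rw [if_pos h5, hTr, hr.zero k h5]
      simp [hsg, h5]
    · rw [if_neg h5, hTr, hr.two k h5]
      simp [hsg, h5]
  -- points of the hexagon number k
  have hA : ∀ (k : Fin d) (x : Fin n → ℝ), x ∈ Pg (hx k) → P x ∈ Fan d ∧ Th (P x) = x := by
    intro k x hxk
    obtain ⟨x1, x2, x3⟩ := hxk
    rw [hsum] at x3
    have x4 : ∀ t, t ≠ m → t ≠ r k → t ≠ r (k + 1) → x t = ((v t).val : ℝ) := by
      intro t h5 h6 h7
      have h8 : hx k t = v t := by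
        rw [hval, if_neg]
        rintro (h9 | h9)
        · exact h7 h9
        · exact h6 h9
      rw [x1 t, h8]
      rw [h8]
      exact fun h9 => h5 (huniq t h9)
    have x5 : ∀ j, j ≠ k → j ≠ k + 1 → P x j = 0 := by
      intro j h5 h6
      have h7 := x4 (r j) (hrm j) (fun hh => h5 (hr.inj hh)) (fun hh => h6 (hr.inj hh))
      simp only [hP]
      by_cases h8 : Even j.val
      · rw [if_pos h8, h7, hr.zero j h8]
        simp
      · rw [if_neg h8, h7, hr.two j h8]
        simp
    refine ⟨⟨fun j => ?_, k, x5⟩, ?_⟩
    · simp only [hP]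
      split_ifs
      · exact (x2 _).1
      · linarith [(x2 (r j)).2]
    · funext t
      by_cases h5 : t = m
      · rw [h5, hTm, hsupp _ k x5]
        have e1 := even_succ hr.even hd k
        by_cases h6 : Even k.val
        · have h7 : ¬ Even (k + 1).val := fun h8 => (e1.1 h8) h6
          simp only [hsg, hP, if_pos h6, if_neg h7]
          linarith
        · have h7 : Even (k + 1).val := e1.2 h6
          simp only [hsg, hP, if_neg h6, if_pos h7]
          linarith
      · by_cases h6 : ∃ j, r j = t
        · obtain ⟨j, rfl⟩ := h6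
          rw [hTr]
          by_cases h8 : Even j.val
          · rw [hr.zero j h8]
            simp only [hsg, hP, if_pos h8]
            simp
          · rw [hr.two j h8]
            simp only [hsg, hP, if_neg h8]
            simp
        · push Not at h6
          rw [hTo _ t h5 h6]
          exact (x4 t h5 (h6 k).symm (h6 (k + 1)).symm).symm
  -- the neighbourhood
  let near : (Fin n → ℝ) → Prop := fun x => ∀ t, (v t ≠ 0 → 0 < x t) ∧ (v t ≠ 2 → x t < 2)
  have hB : ∀ a ∈ Fan d, near (Th a) → ∃ k, Th a ∈ Pg (hx k) := by
    rintro a ⟨ha, k, hk⟩ hn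
    refine ⟨k, ?_, ?_, ?_⟩
    · intro t ht
      have h5 : ¬ (t = r (k + 1) ∨ t = r k) := by
        intro h6
        rw [hval, if_pos h6] at ht
        exact ht rfl
      rw [not_or] at h5
      have h6 : hx k t = v t := by
        rw [hval, if_neg (by tauto)]
      rw [h6] at ht ⊢
      have h7 : t ≠ m := fun h8 => ht (by rw [h8]; exact hm1)
      by_cases h8 : ∃ j, r j = t
      · obtain ⟨j, rfl⟩ := h8
        rw [hTr, hk j (fun hh => h5.2 (by rw [hh])) (fun hh => h5.1 (by rw [hh])), mul_zero,
          add_zero]
      · push Not at h8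
        exact hTo a t h7 h8
    · intro t
      by_cases h5 : v t = 1
      · have := hn t
        rw [h5] at this
        exact ⟨(this.1 (by decide)).le, (this.2 (by decide)).le⟩
      · by_cases h8 : ∃ j, r j = t
        · obtain ⟨j, rfl⟩ := h8
          by_cases h9 : Even j.val
          · have h10 := hr.zero j h9
            refine ⟨?_, ((hn _).2 (by rw [h10]; decide)).le⟩
            rw [hTr, h10]
            simp only [hsg, if_pos h9]
            have := ha j
            simpa using this
          · have h10 := hr.two j h9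
            refine ⟨((hn _).1 (by rw [h10]; decide)).le, ?_⟩
            rw [hTr, h10]
            simp only [hsg, if_neg h9]
            have := ha j
            norm_num
            exact this
        · push Not at h8
          rw [hTo a t (fun hh => h5 (by rw [hh]; exact hm1)) h8]
          have h9 : ∀ c : Fin 3, (c.val : ℝ) ≤ 2 := by
            intro c
            have : c.val ≤ 2 := by omega
            exact_mod_cast this
          exact ⟨Nat.cast_nonneg _, h9 _⟩
    · rw [hsum, hTm, hTr, hTr, hsupp a k hk]
      have e1 := even_succ hr.even hd k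
      by_cases h6 : Even k.val
      · have h7 : ¬ Even (k + 1).val := fun h8 => (e1.1 h8) h6
        rw [hr.zero k h6, hr.two _ h7]
        simp only [hsg, if_pos h6, if_neg h7]
        norm_num
        ring
      · have h7 : Even (k + 1).val := e1.2 h6
        rw [hr.two k h6, hr.zero _ h7]
        simp only [hsg, if_neg h6, if_pos h7]
        norm_num
        ring
  have hUn : ∀ z : Fin n → ℝ, z ∈ Un (hfam M) ↔ ∃ h ∈ M, z ∈ Pg h := by
    intro z
    unfold Un hfam
    simp only [Finset.mem_image, Set.mem_iUnion, exists_prop]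
    constructor
    · rintro ⟨B, ⟨h, hh, rfl⟩, hz⟩
      rw [h0 n h (hM.three h hh).1] at hz
      exact ⟨h, hh, hz⟩
    · rintro ⟨h, hh, hz⟩
      exact ⟨_, ⟨h, hh, rfl⟩, by rw [h0 n h (hM.three h hh).1]; exact hz⟩
  have hC : ∀ z ∈ Un (hfam M), near z → ∃ k, z ∈ Pg (hx k) := by
    intro z hz hn
    obtain ⟨h, hh, hzh⟩ := (hUn z).1 hz
    have h5 : IsVx h v := by
      refine vx_of_near (hM.three h hh).1 (hM.three h hh).2 hv1 hv2 ?_
      intro t ht
      have h6 := hzh.1 t ht
      have h7 : ∀ c : Fin 3, c ≠ 1 → c = 0 ∨ c = 2 := by decide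
      rcases h7 (h t) ht with h8 | h8
      · rw [h8] at h6 ⊢
        by_contra h9
        have := (hn t).1 h9
        rw [h6] at this
        simp at this
      · rw [h8] at h6 ⊢
        by_contra h9
        have := (hn t).2 h9
        rw [h6] at this
        norm_num at this
    obtain ⟨k, hk⟩ := (hr.mem h).1 ⟨hh, h5⟩
    exact ⟨k, by rw [hk] at hzh; exact hzh⟩
  have hne : (0 : Fin d → ℝ) ∈ Fan d := ⟨fun _ => le_rfl, 0, fun _ _ _ => rfl⟩
  obtain ⟨z0, hz0⟩ : ∃ z, z ∈ Un (hfam M) := by
    obtain ⟨h, hh⟩ := hM.ne
    have h5 : ((hf h).Nonempty) := by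
      obtain ⟨i, j, k, hij, hik, hjk, hijk⟩ := Finset.card_eq_three.1 (hM.three h hh).1
      have hi : h i = 1 := by
        have : i ∈ act h := by rw [hijk]; simp
        simpa [act] using this
      have hj : h j = 1 := by
        have : j ∈ act h := by rw [hijk]; simp
        simpa [act] using this
      exact ⟨_, Finset.mem_image_of_mem _ (Finset.mem_filter.2 ⟨Finset.mem_univ _,
        i, j, hi, hj, hij, rfl⟩)⟩
    obtain ⟨z, hz⟩ := h5
    refine ⟨z, ?_⟩
    unfold Un hfam
    simp only [Finset.mem_image, Set.mem_iUnion, exists_prop]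
    exact ⟨_, ⟨h, hh, rfl⟩, subset_convexHull ℝ _ hz⟩
  let F : Un (hfam M) → Fan d := fun z => if hz : P z.1 ∈ Fan d then ⟨P z.1, hz⟩ else ⟨0, hne⟩
  let G : Fan d → Un (hfam M) := fun a =>
    if ha : Th a.1 ∈ Un (hfam M) then ⟨Th a.1, ha⟩ else ⟨z0, hz0⟩
  let src : Set (Un (hfam M)) := {z | near z.1}
  let tgt : Set (Fan d) := {a | near (Th a.1)}
  have hF : ∀ z ∈ src, (F z).1 = P z.1 := by
    intro z hz
    obtain ⟨k, hk⟩ := hC z.1 z.2 hz
    have : P z.1 ∈ Fan d := (hA k _ hk).1
    simp only [F, dif_pos this]
  have hG : ∀ a ∈ tgt, (G a).1 = Th a.1 := by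
    intro a ha
    obtain ⟨k, hk⟩ := hB a.1 a.2 ha
    have : Th a.1 ∈ Un (hfam M) := (hUn _).2 ⟨hx k, (hmem k).1, hk⟩
    simp only [G, dif_pos this]
  have hTP : ∀ z ∈ src, Th (P z.1) = z.1 := by
    intro z hz
    obtain ⟨k, hk⟩ := hC z.1 z.2 hz
    exact (hA k _ hk).2
  have hopen : ∀ {X : Type} [TopologicalSpace X] (f : X → Fin n → ℝ), Continuous f →
      IsOpen {z | near (f z)} := by
    intro X _ f hf
    have hs : {z | near (f z)} = ⋂ t : Fin n, {z | (v t ≠ 0 → 0 < f z t) ∧ (v t ≠ 2 → f z t < 2)} := by
      ext z
      rw [Set.mem_iInter]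
      exact ⟨fun hz t => hz t, fun hz t => hz t⟩
    rw [hs]
    refine isOpen_iInter_of_finite fun t => ?_
    have h5 : {z | (v t ≠ 0 → 0 < f z t) ∧ (v t ≠ 2 → f z t < 2)} =
        {z | v t ≠ 0 → 0 < f z t} ∩ {z | v t ≠ 2 → f z t < 2} := rfl
    rw [h5]
    refine IsOpen.inter ?_ ?_
    · by_cases h6 : v t = 0
      · have h7 : {z | v t ≠ 0 → 0 < f z t} = Set.univ := by
          ext z
          exact ⟨fun _ => trivial, fun _ hh => absurd h6 hh⟩
        rw [h7]; exact isOpen_univ
      · have h7 : {z | v t ≠ 0 → 0 < f z t} = {z | 0 < f z t} := by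
          ext z
          exact ⟨fun hh => hh h6, fun hh _ => hh⟩
        rw [h7]
        exact isOpen_lt continuous_const ((continuous_apply t).comp hf)
    · by_cases h6 : v t = 2
      · have h7 : {z | v t ≠ 2 → f z t < 2} = Set.univ := by
          ext z
          exact ⟨fun _ => trivial, fun _ hh => absurd h6 hh⟩
        rw [h7]; exact isOpen_univ
      · have h7 : {z | v t ≠ 2 → f z t < 2} = {z | f z t < 2} := by
          ext z
          exact ⟨fun hh => hh h6, fun hh _ => hh⟩
        rw [h7]
        exact isOpen_lt ((continuous_apply t).comp hf) continuous_const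
  have hsrc : IsOpen src := hopen (fun z : Un (hfam M) => z.1) continuous_subtype_val
  have htgt : IsOpen tgt := hopen (fun a : Fan d => Th a.1) (hThc.comp continuous_subtype_val)
  have hFc : ContinuousOn F src := by
    rw [Topology.IsInducing.subtypeVal.continuousOn_iff]
    refine (hPc.comp continuous_subtype_val).continuousOn.congr ?_
    intro z hz
    exact hF z hz
  have hGc : ContinuousOn G tgt := by
    rw [Topology.IsInducing.subtypeVal.continuousOn_iff]
    refine (hThc.comp continuous_subtype_val).continuousOn.congr ?_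
    intro a ha
    exact hG a ha
  have hm1' : ∀ z ∈ src, F z ∈ tgt := by
    intro z hz
    show near (Th (F z).1)
    rw [hF z hz, hTP z hz]
    exact hz
  have hm2' : ∀ a ∈ tgt, G a ∈ src := by
    intro a ha
    show near (G a).1
    rw [hG a ha]
    exact ha
  have hl : ∀ z ∈ src, G (F z) = z := by
    intro z hz
    apply Subtype.ext
    rw [hG _ (hm1' z hz), hF z hz, hTP z hz]
  have hrr' : ∀ a ∈ tgt, F (G a) = a := by
    intro a ha
    apply Subtype.ext
    rw [hF _ (hm2' a ha), hG a ha]
    exact hPT a.1
  exact ⟨{ toFun := F, invFun := G, source := src, target := tgt,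
           map_source' := fun z hz => hm1' z hz, map_target' := fun a ha => hm2' a ha,
           left_inv' := fun z hz => hl z hz, right_inv' := fun a ha => hrr' a ha,
           open_source := hsrc, open_target := htgt,
           continuousOn_toFun := hFc, continuousOn_invFun := hGc }, fun x hx => hx⟩

end Pool.Agent.H54.RHX
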